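import Mathlib

/-!
The graded ring with the homogeneous coordinates `ξ i`.
-/

set_option autoImplicit false
open DirectSum Polynomial

namespace Pool.Agent.W797.CBP

variable (k : Type) {E : Type} [Field k] [Field E] [Algebra k E] {I : Type} (ξ : I → E)

/-- homogeneous parts -/
noncomputable def VV (d : ℕ) : Submodule k E := (Submodule.span k (Set.range ξ)) ^ d

theorem VV_zero_mem (a : E) : a ∈ VV k ξ 0 ↔ ∃ c : k, algebraMap k E c = a := by
  rw [VV, pow_zero]
  exact Submodule.mem_one

theorem VV_mul {a b : ℕ} {x y : E} (hx : x ∈ VV k ξ a) (hy : y ∈ VV k ξ b) :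
    x * y ∈ VV k ξ (a + b) := by
  rw [VV, pow_add]
  exact Submodule.mul_mem_mul hx hy

theorem VV_one (i : I) : ξ i ∈ VV k ξ 1 := by
  rw [VV, pow_one]
  exact Submodule.subset_span ⟨i, rfl⟩

theorem VV_pow (i : I) (n : ℕ) : ξ i ^ n ∈ VV k ξ n := by
  induction n with
  | zero => rw [pow_zero, VV_zero_mem]; exact ⟨1, map_one _⟩
  | succ n ih => rw [pow_succ]; exact VV_mul k ξ ih (VV_one k ξ i)

/-- the graded ring -/
noncomputable def SS : Subring (Polynomial E) where
  carrier := {p | ∀ d, p.coeff d ∈ VV k ξ d}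
  zero_mem' := fun d => by rw [coeff_zero]; exact Submodule.zero_mem _
  one_mem' := fun d => by
    rw [coeff_one]
    split_ifs with h
    · subst h
      rw [VV_zero_mem]
      exact ⟨1, map_one _⟩
    · exact Submodule.zero_mem _
  add_mem' := fun {p q} hp hq d => by
    rw [coeff_add]
    exact Submodule.add_mem _ (hp d) (hq d)
  mul_mem' := fun {p q} hp hq d => by
    rw [coeff_mul]
    refine Submodule.sum_mem _ fun x hx => ?_
    have h := VV_mul k ξ (hp x.1) (hq x.2)
    rwa [Finset.HasAntidiagonal.mem_antidiagonal.mp hx] at h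
  neg_mem' := fun {p} hp d => by
    rw [coeff_neg]
    exact Submodule.neg_mem _ (hp d)

theorem mem_SS {p : Polynomial E} : p ∈ SS k ξ ↔ ∀ d, p.coeff d ∈ VV k ξ d := Iff.rfl

/-- the grading -/
noncomputable def AA (d : ℕ) : AddSubgroup (SS k ξ) where
  carrier := {p | ∀ e, e ≠ d → (p : Polynomial E).coeff e = 0}
  zero_mem' := fun e _ => coeff_zero e
  add_mem' := fun {p q} hp hq e he => by
    rw [Subring.coe_add, coeff_add, hp e he, hq e he, add_zero]
  neg_mem' := fun {p} hp e he => by
    rw [Subring.coe_neg, coeff_neg, hp e he, neg_zero]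

theorem mem_AA {d : ℕ} {p : SS k ξ} :
    p ∈ AA k ξ d ↔ ∀ e, e ≠ d → (p : Polynomial E).coeff e = 0 := Iff.rfl

theorem AA_eq {d : ℕ} {p : SS k ξ} (hp : p ∈ AA k ξ d) :
    (p : Polynomial E) = monomial d ((p : Polynomial E).coeff d) := by
  ext e
  rw [coeff_monomial]
  split_ifs with h
  · rw [h]
  · exact hp e (Ne.symm h)

/-- monomials -/
noncomputable def mon (d : ℕ) (a : E) (ha : a ∈ VV k ξ d) : SS k ξ :=
  ⟨monomial d a, fun e => by
    rw [coeff_monomial]
    split_ifs with h
    · rw [← h]; exact ha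
    · exact Submodule.zero_mem _⟩

theorem coe_mon (d : ℕ) (a : E) (ha : a ∈ VV k ξ d) :
    ((mon k ξ d a ha : SS k ξ) : Polynomial E) = monomial d a := rfl

theorem mon_mem (d : ℕ) (a : E) (ha : a ∈ VV k ξ d) : mon k ξ d a ha ∈ AA k ξ d := by
  intro e he
  rw [coe_mon, coeff_monomial, if_neg (Ne.symm he)]

theorem eq_mon {d : ℕ} {p : SS k ξ} (hp : p ∈ AA k ξ d) :
    p = mon k ξ d ((p : Polynomial E).coeff d) (p.2 d) :=
  Subtype.ext (AA_eq k ξ hp)

instance : SetLike.GradedMonoid (AA k ξ) where
  one_mem := fun e he => by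
    rw [Subring.coe_one, coeff_one, if_neg he]
  mul_mem := fun a b p q hp hq e he => by
    rw [Subring.coe_mul, AA_eq k ξ hp, AA_eq k ξ hq, monomial_mul_monomial, coeff_monomial,
      if_neg (Ne.symm he)]

theorem isInternal_AA : DirectSum.IsInternal (AA k ξ) := by
  classical
  constructor
  · rw [injective_iff_map_eq_zero]
    intro y hy
    have hsum : ∑ b ∈ DFinsupp.support y, ((y b : SS k ξ) : Polynomial E) = 0 := by
      have h1 := congrArg (SS k ξ).subtype hy
      rw [DirectSum.coeAddMonoidHom_eq_dfinsuppSum, DFinsupp.sum, map_sum, map_zero] at h1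
      exact h1
    ext d : 1
    by_cases hd : d ∈ DFinsupp.support y
    · have h2 := congrArg (fun p => Polynomial.coeff p d) hsum
      simp only [finsetSum_coeff, coeff_zero] at h2
      rw [Finset.sum_eq_single_of_mem d hd] at h2
      · apply Subtype.ext
        apply Subtype.ext
        rw [AA_eq k ξ (y d).2, h2, monomial_zero_right]
        rfl
      · intro b _ hb
        exact (y b).2 d (Ne.symm hb)
    · exact DFinsupp.notMem_support_iff.mp hd
  · intro p
    refine ⟨∑ d ∈ (p : Polynomial E).support, DirectSum.of (fun d => AA k ξ d) d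
      ⟨mon k ξ d _ (p.2 d), mon_mem k ξ d _ _⟩, ?_⟩
    rw [map_sum]
    simp only [DirectSum.coeAddMonoidHom_of]
    apply Subtype.ext
    change (SS k ξ).subtype _ = _
    rw [map_sum]
    exact ((p : Polynomial E).as_sum_support).symm

noncomputable instance : GradedRing (AA k ξ) where
  __ := (isInternal_AA k ξ).chooseDecomposition
  one_mem := SetLike.GradedOne.one_mem
  mul_mem := SetLike.GradedMul.mul_mem

/-- the coordinates -/
noncomputable def ys (i : I) : SS k ξ := mon k ξ 1 (ξ i) (VV_one k ξ i)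

theorem ys_mem (i : I) : ys k ξ i ∈ AA k ξ 1 := mon_mem k ξ 1 _ _

theorem ys_ne (hξ : ∀ i, ξ i ≠ 0) (i : I) : ys k ξ i ≠ 0 := by
  intro h
  have h1 := congrArg (fun p : SS k ξ => (p : Polynomial E).coeff 1) h
  simp only [ys, coe_mon, coeff_monomial, if_true, Subring.coe_zero, coeff_zero] at h1
  exact hξ i h1

theorem mon_add (d : ℕ) (a b : E) (ha : a ∈ VV k ξ d) (hb : b ∈ VV k ξ d) :
    mon k ξ d (a + b) (Submodule.add_mem _ ha hb) = mon k ξ d a ha + mon k ξ d b hb := by
  apply Subtype.ext
  rw [Subring.coe_add, coe_mon, coe_mon, coe_mon, map_add]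

/-- forms of positive degree lie in the ideal of the coordinates -/
theorem mon_succ (P : ℕ → SS k ξ → Prop) (hadd : ∀ d p q, P d p → P d q → P d (p + q))
    (hzero : ∀ d, P d 0)
    (hmul : ∀ d i p, p ∈ AA k ξ d → P (d + 1) (ys k ξ i * p)) (d : ℕ) (a : E)
    (ha : a ∈ VV k ξ (d + 1)) : P (d + 1) (mon k ξ (d + 1) a ha) := by
  have key : ∀ v ∈ Submodule.span k (Set.range ξ), ∀ b ∈ VV k ξ d,
      ∀ h : v * b ∈ VV k ξ (d + 1), P (d + 1) (mon k ξ (d + 1) (v * b) h) := by
    intro v hv
    induction hv using Submodule.span_induction with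
    | mem x hx =>
      obtain ⟨i, rfl⟩ := hx
      intro b hb h
      have e : mon k ξ (d + 1) (ξ i * b) h = ys k ξ i * mon k ξ d b hb := by
        apply Subtype.ext
        rw [Subring.coe_mul, ys, coe_mon, coe_mon, coe_mon, monomial_mul_monomial, add_comm]
      rw [e]
      exact hmul d i _ (mon_mem k ξ d b hb)
    | zero =>
      intro b hb h
      have e : mon k ξ (d + 1) (0 * b) h = 0 := by
        apply Subtype.ext
        rw [coe_mon, zero_mul, monomial_zero_right]
        rfl
      rw [e]
      exact hzero _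
    | add x y hx hy ihx ihy =>
      intro b hb h
      have h1 : x * b ∈ VV k ξ (d + 1) := by
        rw [VV, pow_succ']
        exact Submodule.mul_mem_mul hx hb
      have h2 : y * b ∈ VV k ξ (d + 1) := by
        rw [VV, pow_succ']
        exact Submodule.mul_mem_mul hy hb
      have e : mon k ξ (d + 1) ((x + y) * b) h = mon k ξ (d + 1) (x * b) h1 +
          mon k ξ (d + 1) (y * b) h2 := by
        rw [← mon_add]
        apply Subtype.ext
        rw [coe_mon, coe_mon, add_mul]
      rw [e]
      exact hadd _ _ _ (ihx b hb h1) (ihy b hb h2)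
    | smul c x hx ih =>
      intro b hb h
      have hb' : c • b ∈ VV k ξ d := Submodule.smul_mem _ c hb
      have h' : x * (c • b) ∈ VV k ξ (d + 1) := by
        rw [mul_smul_comm, ← smul_mul_assoc]
        exact h
      have e : mon k ξ (d + 1) ((c • x) * b) h = mon k ξ (d + 1) (x * (c • b)) h' := by
        apply Subtype.ext
        rw [coe_mon, coe_mon, smul_mul_assoc, mul_smul_comm]
      rw [e]
      exact ih (c • b) hb' h'
  have ha' : a ∈ Submodule.span k (Set.range ξ) * VV k ξ d := by
    rw [VV, ← pow_succ']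
    exact ha
  revert ha
  induction ha' using Submodule.mul_induction_on' with
  | mem_mul_mem m hm n hn => exact fun h => key m hm n hn h
  | add x hx y hy ihx ihy =>
    intro h
    have h1 : x ∈ VV k ξ (d + 1) := by
      rw [VV, pow_succ']
      exact hx
    have h2 : y ∈ VV k ξ (d + 1) := by
      rw [VV, pow_succ']
      exact hy
    have e := mon_add k ξ (d + 1) x y h1 h2
    have e' : mon k ξ (d + 1) (x + y) h = mon k ξ (d + 1) x h1 + mon k ξ (d + 1) y h2 := by
      rw [← e]
    rw [e']
    exact hadd _ _ _ (ihx h1) (ihy h2)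

theorem mem_ideal (d : ℕ) (hd : 0 < d) (p : SS k ξ) (hp : p ∈ AA k ξ d) :
    p ∈ Ideal.span (Set.range (ys k ξ)) := by
  obtain ⟨e, rfl⟩ := Nat.exists_eq_succ_of_ne_zero hd.ne'
  rw [eq_mon k ξ hp]
  refine mon_succ k ξ (fun _ q => q ∈ Ideal.span (Set.range (ys k ξ)))
    (fun _ p q hp hq => Ideal.add_mem _ hp hq) (fun _ => Ideal.zero_mem _) ?_ e _ (p.2 _)
  intro d i q _
  exact Ideal.mul_mem_right _ _ (Ideal.subset_span ⟨i, rfl⟩)

theorem adjoin_top : Algebra.adjoin (AA k ξ 0) (Set.range (ys k ξ)) = ⊤ := by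
  rw [eq_top_iff]
  intro p _
  have hhom : ∀ (d : ℕ) (q : SS k ξ), q ∈ AA k ξ d →
      q ∈ Algebra.adjoin (AA k ξ 0) (Set.range (ys k ξ)) := by
    intro d
    induction d with
    | zero =>
      intro q hq
      exact Subalgebra.algebraMap_mem (Algebra.adjoin (AA k ξ 0) (Set.range (ys k ξ))) ⟨q, hq⟩
    | succ d ih =>
      intro q hq
      rw [eq_mon k ξ hq]
      refine mon_succ k ξ (fun e q => e = d + 1 →
        q ∈ Algebra.adjoin (AA k ξ 0) (Set.range (ys k ξ)))
        (fun _ p q hp hq he => add_mem (hp he) (hq he)) (fun _ _ => zero_mem _) ?_ d _ (q.2 _) rfl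
      intro e i r hr he
      obtain rfl : e = d := by omega
      exact mul_mem (Algebra.subset_adjoin ⟨i, rfl⟩) (ih r hr)
  classical
  rw [← DirectSum.sum_support_decompose (AA k ξ) p]
  exact sum_mem fun d _ => hhom d _ (SetLike.coe_mem _)

instance [Finite I] : Algebra.FiniteType (AA k ξ 0) (SS k ξ) := by
  refine ⟨⟨(Set.finite_range (ys k ξ)).toFinset, ?_⟩⟩
  rw [Set.Finite.coe_toFinset]
  exact adjoin_top k ξ

/-- the field `k` is the degree zero part -/
noncomputable def phi0 : k →+* AA k ξ 0 where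
  toFun c := ⟨mon k ξ 0 (algebraMap k E c) ((VV_zero_mem k ξ _).mpr ⟨c, rfl⟩), mon_mem k ξ 0 _ _⟩
  map_one' := by
    apply Subtype.ext
    apply Subtype.ext
    change monomial 0 (algebraMap k E 1) = 1
    rw [map_one]
    rfl
  map_mul' a b := by
    apply Subtype.ext
    apply Subtype.ext
    change monomial 0 (algebraMap k E (a * b)) =
      monomial 0 (algebraMap k E a) * monomial 0 (algebraMap k E b)
    rw [monomial_mul_monomial, map_mul]
  map_zero' := by
    apply Subtype.ext
    apply Subtype.ext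
    change monomial 0 (algebraMap k E 0) = 0
    rw [map_zero, monomial_zero_right]
  map_add' a b := by
    apply Subtype.ext
    apply Subtype.ext
    change monomial 0 (algebraMap k E (a + b)) =
      monomial 0 (algebraMap k E a) + monomial 0 (algebraMap k E b)
    rw [map_add, map_add]

theorem coe_phi0 (c : k) : (((phi0 k ξ c : AA k ξ 0) : SS k ξ) : Polynomial E) =
    monomial 0 (algebraMap k E c) := rfl

theorem phi0_bijective : Function.Bijective (phi0 k ξ) := by
  constructor
  · intro a b hab
    have h := congrArg (fun p : AA k ξ 0 => ((p : SS k ξ) : Polynomial E).coeff 0) hab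
    simp only [coe_phi0, coeff_monomial, if_true] at h
    exact (algebraMap k E).injective h
  · intro a
    obtain ⟨c, hc⟩ := (VV_zero_mem k ξ _).mp ((a : SS k ξ).2 0)
    refine ⟨c, ?_⟩
    apply Subtype.ext
    apply Subtype.ext
    rw [coe_phi0, hc]
    exact (AA_eq k ξ a.2).symm

/-- the coordinate rings of the charts -/
theorem chart_iff (hξ : ∀ i, ξ i ≠ 0) (i : I) (e : E) :
    e ∈ Algebra.adjoin k (Set.range fun j => ξ j / ξ i) ↔
      ∃ (n : ℕ) (a : E), a ∈ VV k ξ n ∧ a / ξ i ^ n = e := by
  constructor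
  · intro he
    induction he using Algebra.adjoin_induction with
    | mem x hx =>
      obtain ⟨j, rfl⟩ := hx
      exact ⟨1, ξ j, VV_one k ξ j, by rw [pow_one]⟩
    | algebraMap c => exact ⟨0, algebraMap k E c, (VV_zero_mem k ξ _).mpr ⟨c, rfl⟩, by simp⟩
    | add x y _ _ hx hy =>
      obtain ⟨n, a, ha, rfl⟩ := hx
      obtain ⟨m, b, hb, rfl⟩ := hy
      refine ⟨n + m, a * ξ i ^ m + ξ i ^ n * b, Submodule.add_mem _
        (VV_mul k ξ ha (VV_pow k ξ i m)) (VV_mul k ξ (VV_pow k ξ i n) hb), ?_⟩
      have := hξ i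
      rw [pow_add]
      field_simp
    | mul x y _ _ hx hy =>
      obtain ⟨n, a, ha, rfl⟩ := hx
      obtain ⟨m, b, hb, rfl⟩ := hy
      refine ⟨n + m, a * b, VV_mul k ξ ha hb, ?_⟩
      rw [pow_add, mul_div_mul_comm]
  · rintro ⟨n, a, ha, rfl⟩
    have hle : ∀ v ∈ Submodule.span k (Set.range ξ), v / ξ i ∈
        Algebra.adjoin k (Set.range fun j => ξ j / ξ i) := by
      intro v hv
      induction hv using Submodule.span_induction with
      | mem x hx =>
        obtain ⟨j, rfl⟩ := hx
        exact Algebra.subset_adjoin ⟨j, rfl⟩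
      | zero => rw [zero_div]; exact zero_mem _
      | add x y _ _ hx hy => rw [add_div]; exact add_mem hx hy
      | smul c x _ hx =>
        have e : c • x / ξ i = c • (x / ξ i) := by
          rw [div_eq_mul_inv, div_eq_mul_inv, smul_mul_assoc]
        rw [e]
        exact Subalgebra.smul_mem _ hx c
    induction n generalizing a with
    | zero =>
      obtain ⟨c, rfl⟩ := (VV_zero_mem k ξ _).mp ha
      rw [pow_zero, div_one]
      exact Subalgebra.algebraMap_mem _ c
    | succ n ih =>
      have ha' : a ∈ VV k ξ n * Submodule.span k (Set.range ξ) := by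
        rw [VV, ← pow_succ]
        exact ha
      induction ha' using Submodule.mul_induction_on' with
      | mem_mul_mem m hm n' hn =>
        rw [pow_succ, mul_div_mul_comm]
        exact mul_mem (ih m hm) (hle n' hn)
      | add x hx y hy ihx ihy =>
        rw [add_div]
        refine add_mem (ihx ?_) (ihy ?_)
        · rw [VV, pow_succ]
          exact hx
        · rw [VV, pow_succ]
          exact hy

end Pool.Agent.W797.CBP
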