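import Pool.Agent.H187R3.TaskC
import Pool.Agent.W797.CBP.Alg

/-!
The scheme `Proj`, its function field, and its charts.
-/

set_option autoImplicit false
open AlgebraicGeometry CategoryTheory HomogeneousLocalization
open Pool.Agent.H187R3 (projZeroPoint proj_isIntegral)

namespace Pool.Agent.W797.CBP

/-- The embedding of the function field of `Proj 𝒜` in `F`. -/
theorem exists_emb {A F : Type} [CommRing A] [Field F] (j : A →+* F) (hj : Function.Injective j)
    (𝒜 : ℕ → AddSubgroup A) [GradedRing 𝒜] [IsIntegral (Proj 𝒜)] :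
    ∃ κ : (Proj 𝒜).functionField →+* F,
      ∀ (m : ℕ) (_ : 0 < m) (f : A) (hf : f ∈ 𝒜 m) (_ : f ≠ 0) (n : ℕ) (s : A)
        (hs : s ∈ 𝒜 (n * m)) (hη : genericPoint (Proj 𝒜) ∈ Proj.basicOpen 𝒜 f),
        κ ((Proj 𝒜).presheaf.germ (Proj.basicOpen 𝒜 f) (genericPoint (Proj 𝒜)) hη
          (Proj.awayToSection 𝒜 f (Away.mk 𝒜 hf n s hs))) = j s / j f ^ n := by
  let η : ProjectiveSpectrum 𝒜 := genericPoint (Proj 𝒜)
  let P := η.asHomogeneousIdeal.toIdeal
  have hu : ∀ y : P.primeCompl, IsUnit (j (y : A)) := by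
    intro y
    have hy : (y : A) ≠ 0 := fun h0 => y.2 (h0 ▸ zero_mem _)
    have : j (y : A) ≠ 0 := by
      intro h0
      exact hy (hj (by rw [h0, map_zero]))
    exact isUnit_iff_ne_zero.2 this
  let L : Localization P.primeCompl →+* F := IsLocalization.lift (M := P.primeCompl) hu
  let κ : (Proj 𝒜).functionField →+* F :=
    (L.comp (algebraMap (AtPrime 𝒜 P) (Localization P.primeCompl))).comp
      (stalkToFiberRingHom 𝒜 η).hom
  refine ⟨κ, ?_⟩
  intro m hm f hf hf0 n s hs hη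
  have h1 : (stalkToFiberRingHom 𝒜 η).hom ((Proj 𝒜).presheaf.germ (Proj.basicOpen 𝒜 f)
      (genericPoint (Proj 𝒜)) hη (Proj.awayToSection 𝒜 f (Away.mk 𝒜 hf n s hs))) =
      (Proj.awayToSection 𝒜 f (Away.mk 𝒜 hf n s hs)).1 ⟨η, hη⟩ :=
    stalkToFiberRingHom_germ 𝒜 (Proj.basicOpen 𝒜 f) η hη _
  have h2 : κ ((Proj 𝒜).presheaf.germ (Proj.basicOpen 𝒜 f) (genericPoint (Proj 𝒜)) hη
      (Proj.awayToSection 𝒜 f (Away.mk 𝒜 hf n s hs))) =
      L (((Proj.awayToSection 𝒜 f (Away.mk 𝒜 hf n s hs)).1 ⟨η, hη⟩).val) := by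
    rw [← h1]
    rfl
  rw [h2]
  have h3 := ProjectiveSpectrum.Proj.awayToSection_apply 𝒜 f (Away.mk 𝒜 hf n s hs) ⟨η, hη⟩
  have h4 : ((Proj.awayToSection 𝒜 f (Away.mk 𝒜 hf n s hs)).1 ⟨η, hη⟩).val =
      IsLocalization.map (M := Submonoid.powers f) (T := P.primeCompl) _
        (RingHom.id _) (Submonoid.powers_le.mpr hη) (Away.mk 𝒜 hf n s hs).val := h3
  rw [h4, Away.val_mk, Localization.mk_eq_mk', IsLocalization.map_mk']
  have hfF : j f ≠ 0 := fun h0 => hf0 (hj (by rw [h0, map_zero]))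
  refine (IsLocalization.lift_mk'_spec hu _ _ _).2 ?_
  show j s = j (f ^ n) * (j s / j f ^ n)
  rw [map_pow]
  field_simp

variable (k : Type) {E : Type} [Field k] [Field E] [Algebra k E] {I : Type} (ξ : I → E)

theorem isInt [Nonempty I] (hξ : ∀ i, ξ i ≠ 0) : IsIntegral (Proj (AA k ξ)) :=
  proj_isIntegral (AA k ξ) ⟨1, one_pos, ys k ξ (Classical.arbitrary I), ys_mem k ξ _,
    ys_ne k ξ hξ _⟩

/-- the embedding of the graded ring in a field -/
noncomputable def jj : SS k ξ →+* FractionRing (Polynomial E) :=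
  (algebraMap (Polynomial E) (FractionRing (Polynomial E))).comp (SS k ξ).subtype

theorem jj_injective : Function.Injective (jj k ξ) :=
  (IsFractionRing.injective (Polynomial E) (FractionRing (Polynomial E))).comp
    Subtype.val_injective

/-- the constants -/
noncomputable def cF (E : Type) [Field E] : E →+* FractionRing (Polynomial E) :=
  (algebraMap (Polynomial E) (FractionRing (Polynomial E))).comp Polynomial.C

theorem cF_injective : Function.Injective (cF E) := (cF E).injective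

theorem jj_div (i : I) (hξ : ∀ i, ξ i ≠ 0) (n : ℕ) (s : SS k ξ) (hs : s ∈ AA k ξ n) :
    jj k ξ s / jj k ξ (ys k ξ i) ^ n = cF E ((s : Polynomial E).coeff n / ξ i ^ n) := by
  have hX : algebraMap (Polynomial E) (FractionRing (Polynomial E)) Polynomial.X ≠ 0 := by
    intro h
    apply Polynomial.X_ne_zero (R := E)
    apply IsFractionRing.injective (Polynomial E) (FractionRing (Polynomial E))
    rw [h, map_zero]
  have h0 : cF E (ξ i) ≠ 0 := by
    intro h
    exact hξ i (cF_injective (by rw [h, map_zero]))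
  have h1 : jj k ξ s = cF E ((s : Polynomial E).coeff n) *
      algebraMap (Polynomial E) (FractionRing (Polynomial E)) Polynomial.X ^ n := by
    change algebraMap (Polynomial E) (FractionRing (Polynomial E)) (s : Polynomial E) = _
    conv_lhs => rw [AA_eq k ξ hs, ← Polynomial.C_mul_X_pow_eq_monomial, map_mul, map_pow]
    rfl
  have h2 : jj k ξ (ys k ξ i) = cF E (ξ i) *
      algebraMap (Polynomial E) (FractionRing (Polynomial E)) Polynomial.X := by
    change algebraMap (Polynomial E) (FractionRing (Polynomial E)) (Polynomial.monomial 1 (ξ i)) = _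
    rw [← Polynomial.C_mul_X_pow_eq_monomial, map_mul, map_pow, pow_one]
    rfl
  rw [h1, h2, map_div₀, map_pow, mul_pow]
  field_simp

section geom
variable [hInt : IsIntegral (Proj (AA k ξ))]

/-- the embedding of the function field -/
noncomputable def kap0 : (Proj (AA k ξ)).functionField →+* FractionRing (Polynomial E) :=
  (exists_emb (jj k ξ) (jj_injective k ξ) (AA k ξ)).choose

theorem kap0_spec (m : ℕ) (hm : 0 < m) (f : SS k ξ) (hf : f ∈ AA k ξ m) (hf0 : f ≠ 0) (n : ℕ)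
    (s : SS k ξ) (hs : s ∈ AA k ξ (n * m))
    (hη : genericPoint (Proj (AA k ξ)) ∈ Proj.basicOpen (AA k ξ) f) :
    kap0 k ξ ((Proj (AA k ξ)).presheaf.germ (Proj.basicOpen (AA k ξ) f)
      (genericPoint (Proj (AA k ξ))) hη
      (Proj.awayToSection (AA k ξ) f (Away.mk (AA k ξ) hf n s hs))) = jj k ξ s / jj k ξ f ^ n :=
  (exists_emb (jj k ξ) (jj_injective k ξ) (AA k ξ)).choose_spec m hm f hf hf0 n s hs hη

theorem gen_mem (hξ : ∀ i, ξ i ≠ 0) (i : I) :
    genericPoint (Proj (AA k ξ)) ∈ Proj.basicOpen (AA k ξ) (ys k ξ i) := by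
  let z : ProjectiveSpectrum (AA k ξ) :=
    projZeroPoint (AA k ξ) ⟨1, one_pos, ys k ξ i, ys_mem k ξ i, ys_ne k ξ hξ i⟩
  have hz : (z : Proj (AA k ξ)) ∈ Proj.basicOpen (AA k ξ) (ys k ξ i) := by
    show ys k ξ i ∉ (⊥ : HomogeneousIdeal (AA k ξ)).toIdeal
    rw [HomogeneousIdeal.toIdeal_bot]
    simpa using ys_ne k ξ hξ i
  rw [← SetLike.mem_coe]
  exact ((genericPoint_spec (Proj (AA k ξ))).mem_open_set_iff
    (Proj.basicOpen (AA k ξ) (ys k ξ i)).isOpen).mpr ⟨z, trivial, hz⟩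

/-- germs of elements of the chart ring -/
noncomputable def gs (i : I) (x : Proj (AA k ξ)) (hx : x ∈ Proj.basicOpen (AA k ξ) (ys k ξ i)) :
    Away (AA k ξ) (ys k ξ i) →+* (Proj (AA k ξ)).presheaf.stalk x :=
  (((Proj (AA k ξ)).presheaf.germ _ x hx).hom).comp
    (Proj.awayToSection (AA k ξ) (ys k ξ i)).hom

/-- values of elements of the chart ring in the big field -/
noncomputable def av (hξ : ∀ i, ξ i ≠ 0) (i : I) :
    Away (AA k ξ) (ys k ξ i) →+* FractionRing (Polynomial E) :=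
  (kap0 k ξ).comp (gs k ξ i (genericPoint (Proj (AA k ξ))) (gen_mem k ξ hξ i))

theorem av_mk (hξ : ∀ i, ξ i ≠ 0) (i : I) (n : ℕ) (s : SS k ξ) (hs : s ∈ AA k ξ (n • 1)) :
    av k ξ hξ i (Away.mk (AA k ξ) (ys_mem k ξ i) n s hs) =
      cF E ((s : Polynomial E).coeff n / ξ i ^ n) := by
  have h := kap0_spec k ξ 1 one_pos (ys k ξ i) (ys_mem k ξ i) (ys_ne k ξ hξ i) n s hs
    (gen_mem k ξ hξ i)
  have hs' : s ∈ AA k ξ n := by simpa using hs
  rw [jj_div k ξ i hξ n s hs'] at h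
  exact h

theorem kap0_gs (hξ : ∀ i, ξ i ≠ 0) (i : I) (x : Proj (AA k ξ))
    (hx : x ∈ Proj.basicOpen (AA k ξ) (ys k ξ i)) (a : Away (AA k ξ) (ys k ξ i)) :
    kap0 k ξ (algebraMap _ (Proj (AA k ξ)).functionField (gs k ξ i x hx a)) = av k ξ hξ i a := by
  have : Nonempty (Proj.basicOpen (AA k ξ) (ys k ξ i)) := ⟨⟨x, hx⟩⟩
  have h := Scheme.algebraMap_germ_eq_germToFunctionField (X := Proj (AA k ξ)) hx
    ((Proj.awayToSection (AA k ξ) (ys k ξ i)).hom a)
  change kap0 k ξ (algebraMap _ (Proj (AA k ξ)).functionField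
    ((Proj (AA k ξ)).presheaf.germ _ x hx
    ((Proj.awayToSection (AA k ξ) (ys k ξ i)).hom a))) = _
  rw [h]
  rfl

omit hInt in
theorem affine_chart (i : I) : IsAffineOpen (Proj.basicOpen (AA k ξ) (ys k ξ i)) :=
  Proj.isAffineOpen_basicOpen (AA k ξ) (ys k ξ i) (ys_mem k ξ i) one_pos

omit hInt in
theorem sec_surj (i : I) :
    Function.Surjective (Proj.awayToSection (AA k ξ) (ys k ξ i)).hom :=
  (Proj.basicOpenIsoAway (AA k ξ) (ys k ξ i) (ys_mem k ξ i)
    one_pos).commRingCatIsoToRingEquiv.surjective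

omit hInt in
theorem stalk_frac (i : I) (x : Proj (AA k ξ))
    (hx : x ∈ Proj.basicOpen (AA k ξ) (ys k ξ i)) (a : (Proj (AA k ξ)).presheaf.stalk x) :
    ∃ p q : Away (AA k ξ) (ys k ξ i), IsUnit (gs k ξ i x hx q) ∧
        a * gs k ξ i x hx q = gs k ξ i x hx p := by
  have hU := affine_chart k ξ i
  let := TopCat.Presheaf.algebra_section_stalk (Proj (AA k ξ)).presheaf
    (⟨x, hx⟩ : Proj.basicOpen (AA k ξ) (ys k ξ i))
  have hloc := hU.isLocalization_stalk ⟨x, hx⟩
  obtain ⟨⟨p, q⟩, h⟩ := IsLocalization.surj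
    (M := (hU.primeIdealOf ⟨x, hx⟩).asIdeal.primeCompl) a
  have hq := IsLocalization.map_units ((Proj (AA k ξ)).presheaf.stalk x) q
  have hsurj := sec_surj k ξ i
  obtain ⟨p', hp'⟩ := hsurj p
  obtain ⟨q', hq'⟩ := hsurj q
  refine ⟨p', q', ?_, ?_⟩
  · change IsUnit ((Proj (AA k ξ)).presheaf.germ _ x hx
      ((Proj.awayToSection (AA k ξ) (ys k ξ i)).hom q'))
    rw [hq']
    exact hq
  · change a * ((Proj (AA k ξ)).presheaf.germ _ x hx
      ((Proj.awayToSection (AA k ξ) (ys k ξ i)).hom q')) = (Proj (AA k ξ)).presheaf.germ _ x hx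
      ((Proj.awayToSection (AA k ξ) (ys k ξ i)).hom p')
    rw [hq', hp']
    exact h

theorem av_range (hξ : ∀ i, ξ i ≠ 0) (i : I) (a : Away (AA k ξ) (ys k ξ i)) :
    av k ξ hξ i a ∈ (cF E).fieldRange := by
  obtain ⟨n, s, hs, rfl⟩ := Away.mk_surjective (AA k ξ) (ys_mem k ξ i) a
  rw [av_mk]
  exact ⟨_, rfl⟩

theorem kap0_range [Nonempty I] (hξ : ∀ i, ξ i ≠ 0) (φ : (Proj (AA k ξ)).functionField) :
    kap0 k ξ φ ∈ (cF E).fieldRange := by
  let i : I := Classical.arbitrary I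
  obtain ⟨p, q, hq, h⟩ := stalk_frac k ξ i (genericPoint (Proj (AA k ξ))) (gen_mem k ξ hξ i) φ
  have h1 := congrArg (kap0 k ξ) h
  rw [map_mul] at h1
  have h2 : kap0 k ξ φ * av k ξ hξ i q = av k ξ hξ i p := h1
  have h3 : av k ξ hξ i q ≠ 0 := by
    have h4 : IsUnit (kap0 k ξ (gs k ξ i (genericPoint (Proj (AA k ξ))) (gen_mem k ξ hξ i) q)) :=
      hq.map (kap0 k ξ)
    exact h4.ne_zero
  rw [eq_div_of_mul_eq h3 h2]
  exact Subfield.div_mem _ (av_range k ξ hξ i p) (av_range k ξ hξ i q)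

/-- the embedding of the function field in `E` -/
noncomputable def kap [Nonempty I] (hξ : ∀ i, ξ i ≠ 0) : (Proj (AA k ξ)).functionField →+* E :=
  ((RingEquiv.ofBijective (cF E).rangeRestrictField
    ⟨fun _ _ h => cF_injective (congrArg Subtype.val h),
      (cF E).rangeRestrictField_bijective.2⟩).symm : (cF E).fieldRange →+* E).comp
    ((kap0 k ξ).codRestrict (cF E).fieldRange (kap0_range k ξ hξ))

theorem cF_kap [Nonempty I] (hξ : ∀ i, ξ i ≠ 0) (φ : (Proj (AA k ξ)).functionField) :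
    cF E (kap k ξ hξ φ) = kap0 k ξ φ := by
  have h := (RingEquiv.ofBijective (cF E).rangeRestrictField
    ⟨fun _ _ h => cF_injective (congrArg Subtype.val h),
      (cF E).rangeRestrictField_bijective.2⟩).apply_symm_apply
      ((kap0 k ξ).codRestrict (cF E).fieldRange (kap0_range k ξ hξ) φ)
  exact congrArg Subtype.val h

theorem kap_gs [Nonempty I] (hξ : ∀ i, ξ i ≠ 0) (i : I) (x : Proj (AA k ξ))
    (hx : x ∈ Proj.basicOpen (AA k ξ) (ys k ξ i)) (n : ℕ) (s : SS k ξ)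
    (hs : s ∈ AA k ξ (n • 1)) :
    kap k ξ hξ (algebraMap _ (Proj (AA k ξ)).functionField
      (gs k ξ i x hx (Away.mk (AA k ξ) (ys_mem k ξ i) n s hs))) =
      (s : Polynomial E).coeff n / ξ i ^ n := by
  apply cF_injective
  rw [cF_kap, kap0_gs k ξ hξ, av_mk]

end geom

end Pool.Agent.W797.CBP
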