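import Pool.Agent.W525.CB.Stm
import Pool.Agent.W797.CBP.Emb

/-!
Projective varieties with given homogeneous coordinates.
-/

set_option autoImplicit false
open AlgebraicGeometry CategoryTheory HomogeneousLocalization Order
open Pool.Agent.H187R3 (IsAmpleDivisor IsLocalEquation)
open Pool.Agent.W525.CB

namespace Pool.Agent.W797.CBP

variable (k : Type) {E : Type} [Field k] [Field E] [Algebra k E] {I : Type} (ξ : I → E)

/-- the charts cover -/
theorem cover (x : Proj (AA k ξ)) : ∃ i : I, x ∈ Proj.basicOpen (AA k ξ) (ys k ξ i) := by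
  classical
  by_contra hcon
  push Not at hcon
  have hmem : ∀ i, ys k ξ i ∈ x.asHomogeneousIdeal.toIdeal := by
    intro i
    have := hcon i
    rw [Proj.mem_basicOpen, not_not] at this
    exact this
  have hspan : Ideal.span (Set.range (ys k ξ)) ≤ x.asHomogeneousIdeal.toIdeal := by
    rw [Ideal.span_le]
    rintro _ ⟨i, rfl⟩
    exact hmem i
  apply ProjectiveSpectrum.not_irrelevant_le x
  intro z hz
  have hz' : z ∈ HomogeneousIdeal.irrelevant (AA k ξ) := hz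
  rw [HomogeneousIdeal.mem_irrelevant_iff, GradedRing.proj_apply] at hz'
  rw [← DirectSum.sum_support_decompose (AA k ξ) z]
  refine Ideal.sum_mem _ fun d _ => ?_
  by_cases hd : d = 0
  · subst hd
    rw [hz']
    exact Ideal.zero_mem _
  · exact hspan (mem_ideal k ξ d (Nat.pos_of_ne_zero hd) _
      (SetLike.coe_mem (DirectSum.decompose (AA k ξ) z d)))

/-- the structure map -/
noncomputable def ff : Proj (AA k ξ) ⟶ Spec (CommRingCat.of k) :=
  Proj.toSpecZero (AA k ξ) ≫ Spec.map (CommRingCat.ofHom (phi0 k ξ))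

instance : IsIso (CommRingCat.ofHom (phi0 k ξ)) :=
  (ConcreteCategory.isIso_iff_bijective _).mpr (phi0_bijective k ξ)

theorem ff_proper [Finite I] : IsProper (ff k ξ) := by
  have h2 : IsProper (Proj.toSpecZero (AA k ξ)) := inferInstance
  exact (MorphismProperty.cancel_right_of_respectsIso @IsProper _ _).mpr h2

theorem noeth [Finite I] : IsLocallyNoetherian (Proj (AA k ξ)) := by
  have := ff_proper k ξ
  exact LocallyOfFiniteType.isLocallyNoetherian (ff k ξ)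

/-- the map from the degree zero part to the global sections -/
noncomputable def phiE : CommRingCat.of (AA k ξ 0) ⟶ Γ(Proj (AA k ξ), ⊤) :=
  CommRingCat.ofHom (fromZeroRingHom (AA k ξ) (Submonoid.powers 1)) ≫
    Proj.awayToSection (AA k ξ) 1 ≫
    (Proj (AA k ξ)).presheaf.map (homOfLE (Proj.basicOpen_one (AA k ξ)).ge).op

theorem toSpecZero_eq :
    Proj.toSpecZero (AA k ξ) = (Proj (AA k ξ)).toSpecΓ ≫ Spec.map (phiE k ξ) := by
  rw [phiE, Proj.toSpecZero, Proj.basicOpenToSpec, Spec.map_comp, Spec.map_comp]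
  simp only [Category.assoc]
  have h1 := Scheme.Opens.toSpecΓ_SpecMap_presheaf_map ⊤ (Proj.basicOpen (AA k ξ) 1)
    (Proj.basicOpen_one (AA k ξ)).ge
  rw [Scheme.Opens.toSpecΓ_top] at h1
  rw [Scheme.isoOfEq_inv]
  have h2 : (Scheme.topIso (Proj (AA k ξ))).inv ≫
      (Proj (AA k ξ)).homOfLE (Proj.basicOpen_one (AA k ξ)).ge ≫
      (Proj.basicOpen (AA k ξ) 1).toSpecΓ = (Proj (AA k ξ)).toSpecΓ ≫
        Spec.map ((Proj (AA k ξ)).presheaf.map
          (homOfLE (Proj.basicOpen_one (AA k ξ)).ge).op) := by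
    rw [← h1, Category.assoc, ← Category.assoc, Scheme.toIso_inv_ι, Category.id_comp]
  rw [← Category.assoc, ← Category.assoc, Category.assoc (Scheme.topIso _).inv, h2]
  simp only [Category.assoc]

theorem appTop_eq :
    (Scheme.ΓSpecIso (CommRingCat.of k)).inv ≫ (ff k ξ).appTop =
      CommRingCat.ofHom (phi0 k ξ) ≫ phiE k ξ := by
  rw [ff, toSpecZero_eq]
  simp only [Scheme.Hom.comp_appTop, Category.assoc]
  rw [Scheme.toSpecΓ_appTop]
  rw [← Category.assoc, ← Scheme.ΓSpecIso_inv_naturality, Category.assoc, ← Category.assoc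
    (Scheme.ΓSpecIso _).inv, ← Scheme.ΓSpecIso_inv_naturality, Category.assoc, Iso.inv_hom_id,
    Category.comp_id]

section geom
variable [hInt : IsIntegral (Proj (AA k ξ))]

theorem generic_mem_one : genericPoint (Proj (AA k ξ)) ∈ Proj.basicOpen (AA k ξ) 1 := by
  rw [Proj.basicOpen_one]; trivial

theorem kap_gen [Nonempty I] (hξ : ∀ i, ξ i ≠ 0) (i : I) (n : ℕ) (s : SS k ξ)
    (hs : s ∈ AA k ξ (n • 1)) :
    kap k ξ hξ (gs k ξ i (genericPoint (Proj (AA k ξ))) (gen_mem k ξ hξ i)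
      (Away.mk (AA k ξ) (ys_mem k ξ i) n s hs)) = (s : Polynomial E).coeff n / ξ i ^ n := by
  apply cF_injective
  rw [cF_kap]
  exact av_mk k ξ hξ i n s hs

theorem kap_phiE [Nonempty I] (hξ : ∀ i, ξ i ≠ 0) (a : AA k ξ 0) :
    kap k ξ hξ ((Proj (AA k ξ)).presheaf.germ ⊤ (genericPoint (Proj (AA k ξ))) trivial
    ((phiE k ξ).hom a)) = ((a : SS k ξ) : Polynomial E).coeff 0 := by
  let i : I := Classical.arbitrary I
  have hη := gen_mem k ξ hξ i
  have h1 := Proj.awayMap_awayToSection (𝒜 := AA k ξ) (f := 1) (ys_mem k ξ i)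
    (x := ys k ξ i) (one_mul _).symm
  have h2 := congrArg (fun φ => φ.hom (fromZeroRingHom (AA k ξ) (Submonoid.powers 1) a)) h1
  simp only [CommRingCat.hom_comp, CommRingCat.hom_ofHom, RingHom.comp_apply] at h2
  rw [awayMap_fromZeroRingHom] at h2
  have h3 : (Proj (AA k ξ)).presheaf.germ ⊤ (genericPoint (Proj (AA k ξ))) trivial
      ((phiE k ξ).hom a) =
      (Proj (AA k ξ)).presheaf.germ (Proj.basicOpen (AA k ξ) (ys k ξ i))
        (genericPoint (Proj (AA k ξ))) hη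
        (Proj.awayToSection (AA k ξ) (ys k ξ i) (Away.mk (AA k ξ) (ys_mem k ξ i) 0 (a : SS k ξ)
          (by simp))) := by
    have h4 : (Proj (AA k ξ)).presheaf.germ ⊤ (genericPoint (Proj (AA k ξ))) trivial
        ((phiE k ξ).hom a) =
        (Proj (AA k ξ)).presheaf.germ (Proj.basicOpen (AA k ξ) 1)
          (genericPoint (Proj (AA k ξ))) (generic_mem_one k ξ)
          ((Proj.awayToSection (AA k ξ) 1).hom
            (fromZeroRingHom (AA k ξ) (Submonoid.powers 1) a)) :=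
      TopCat.Presheaf.germ_res_apply (Proj (AA k ξ)).presheaf
        (homOfLE (Proj.basicOpen_one (AA k ξ)).ge) (genericPoint (Proj (AA k ξ))) trivial
        ((Proj.awayToSection (AA k ξ) 1).hom (fromZeroRingHom (AA k ξ) (Submonoid.powers 1) a))
    have h5 := TopCat.Presheaf.germ_res_apply (Proj (AA k ξ)).presheaf
        (homOfLE (Proj.basicOpen_mono (AA k ξ) _ _ ⟨_, (one_mul (ys k ξ i)).symm⟩))
        (genericPoint (Proj (AA k ξ))) hη
        ((Proj.awayToSection (AA k ξ) 1).hom (fromZeroRingHom (AA k ξ) (Submonoid.powers 1) a))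
    rw [h4, ← h5, ← h2]
    congr 2
  rw [h3]
  have h6 := kap_gen k ξ hξ i 0 (a : SS k ξ) (by simp)
  rw [pow_zero, div_one] at h6
  exact h6

theorem scal [Nonempty I] (hξ : ∀ i, ξ i ≠ 0) (c : k) :
    kap k ξ hξ (kmap (ff k ξ) c) = algebraMap k E c := by
  have h : kmap (ff k ξ) c = (Proj (AA k ξ)).presheaf.germ ⊤ (genericPoint (Proj (AA k ξ))) trivial
    ((phiE k ξ).hom (phi0 k ξ c)) := by
    rw [kmap, appTop_eq]
    rfl
  rw [h, kap_phiE, coe_phi0, Polynomial.coeff_monomial, if_pos rfl]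

theorem isUnit_mapId {A : Type} [CommRing A] (𝒜 : ℕ → AddSubgroup A) [GradedRing 𝒜] (P : Ideal A)
    [P.IsPrime] {f g : A} (hf : f ∈ 𝒜 1) (hg : g ∈ 𝒜 (1 • 1))
    (hP : Submonoid.powers f ≤ P.primeCompl) :
    IsUnit (HomogeneousLocalization.mapId 𝒜 hP (Away.mk 𝒜 hf 1 g hg)) ↔ g ∉ P := by
  rw [← isUnit_iff_isUnit_val]
  have h : (HomogeneousLocalization.mapId 𝒜 hP (Away.mk 𝒜 hf 1 g hg)).val =
    Localization.mk g ⟨f ^ 1, hP ⟨1, rfl⟩⟩ := rfl
  rw [h, Localization.mk_eq_mk', IsLocalization.AtPrime.isUnit_mk'_iff _ P]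
  rfl

/-- `ξ_j/ξ_i` is a unit of the stalk at `x` iff `x` is in the chart `j` -/
theorem unit_iff [Nonempty I] (hξ : ∀ i, ξ i ≠ 0) (i j : I) (x : Proj (AA k ξ))
    (hx : x ∈ Proj.basicOpen (AA k ξ) (ys k ξ i)) :
    ∃ a : (Proj (AA k ξ)).presheaf.stalk x,
      kap k ξ hξ (algebraMap _ (Proj (AA k ξ)).functionField a) = ξ j / ξ i ∧
      (IsUnit a ↔ x ∈ Proj.basicOpen (AA k ξ) (ys k ξ j)) := by
  have hj : ys k ξ j ∈ AA k ξ (1 • 1) := ys_mem k ξ j
  refine ⟨gs k ξ i x hx (Away.mk (AA k ξ) (ys_mem k ξ i) 1 (ys k ξ j) hj), ?_, ?_⟩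
  · rw [kap_gs, pow_one, ys, coe_mon, Polynomial.coeff_monomial, if_pos rfl]
  · have h1 := ProjectiveSpectrum.Proj.awayToSection_germ (AA k ξ) (ys k ξ i) x hx
    have h2 : gs k ξ i x hx (Away.mk (AA k ξ) (ys_mem k ξ i) 1 (ys k ξ j) hj) =
        (Proj.stalkIso (AA k ξ) x).commRingCatIsoToRingEquiv.symm
          (HomogeneousLocalization.mapId (AA k ξ) (Submonoid.powers_le.mpr hx)
            (Away.mk (AA k ξ) (ys_mem k ξ i) 1 (ys k ξ j) hj)) := by
      have h3 := congrArg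
        (fun f => f.hom (Away.mk (AA k ξ) (ys_mem k ξ i) 1 (ys k ξ j) hj)) h1
      exact h3
    rw [h2, MulEquiv.isUnit_map]
    exact @isUnit_mapId (SS k ξ) _ (AA k ξ) _ _ (ProjectiveSpectrum.isPrime x) _ _ _ _ _

/-- the rational function `ξ_j / ξ_i` -/
theorem exists_yq [Nonempty I] (hξ : ∀ i, ξ i ≠ 0) (i j : I) :
    ∃ φ : (Proj (AA k ξ)).functionField, kap k ξ hξ φ = ξ j / ξ i := by
  obtain ⟨a, ha, -⟩ := unit_iff k ξ hξ i j (genericPoint (Proj (AA k ξ))) (gen_mem k ξ hξ i)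
  exact ⟨_, ha⟩

noncomputable def yq [Nonempty I] (hξ : ∀ i, ξ i ≠ 0) (i j : I) :
    (Proj (AA k ξ)).functionField := (exists_yq k ξ hξ i j).choose

theorem kap_yq [Nonempty I] (hξ : ∀ i, ξ i ≠ 0) (i j : I) :
    kap k ξ hξ (yq k ξ hξ i j) = ξ j / ξ i := (exists_yq k ξ hξ i j).choose_spec

theorem kap_injective [Nonempty I] (hξ : ∀ i, ξ i ≠ 0) : Function.Injective (kap k ξ hξ) :=
  (kap k ξ hξ).injective

theorem yq_ne [Nonempty I] (hξ : ∀ i, ξ i ≠ 0) (i j : I) : yq k ξ hξ i j ≠ 0 := by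
  intro h
  have := kap_yq k ξ hξ i j
  rw [h, map_zero] at this
  exact div_ne_zero (hξ j) (hξ i) this.symm

theorem yq_mul [Nonempty I] (hξ : ∀ i, ξ i ≠ 0) (i j l : I) :
    yq k ξ hξ i j * yq k ξ hξ j l = yq k ξ hξ i l := by
  apply kap_injective k ξ hξ
  rw [map_mul, kap_yq, kap_yq, kap_yq]
  have := hξ i
  have := hξ j
  field_simp

theorem yq_self [Nonempty I] (hξ : ∀ i, ξ i ≠ 0) (i : I) : yq k ξ hξ i i = 1 := by
  apply kap_injective k ξ hξ
  rw [kap_yq, map_one, div_self (hξ i)]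

/-- a chart containing a point -/
noncomputable def ch (x : Proj (AA k ξ)) : I := (cover k ξ x).choose

omit hInt in
theorem mem_ch (x : Proj (AA k ξ)) : x ∈ Proj.basicOpen (AA k ξ) (ys k ξ (ch k ξ x)) :=
  (cover k ξ x).choose_spec

variable [hN : IsLocallyNoetherian (Proj (AA k ξ))]

/-- the divisor -/
noncomputable def Ea [Nonempty I] (hξ : ∀ i, ξ i ≠ 0) (x : Proj (AA k ξ)) : ℤ :=
  Scheme.ord (yq k ξ hξ (ch k ξ x) (Classical.arbitrary I)) x

theorem ord_yq [Nonempty I] (hξ : ∀ i, ξ i ≠ 0) (i j : I) (x : Proj (AA k ξ))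
    (hi : x ∈ Proj.basicOpen (AA k ξ) (ys k ξ i))
    (hj : x ∈ Proj.basicOpen (AA k ξ) (ys k ξ j)) : Scheme.ord (yq k ξ hξ i j) x = 0 := by
  by_cases hx : coheight x = 1
  · obtain ⟨a, ha, hu⟩ := unit_iff k ξ hξ i j x hi
    have haU : IsUnit a := hu.mpr hj
    have h1 : algebraMap _ (Proj (AA k ξ)).functionField a = yq k ξ hξ i j := by
      apply kap_injective k ξ hξ; rw [ha, kap_yq]
    rw [← h1, Scheme.ord_eq_iff hx (by rw [h1]; exact yq_ne k ξ hξ i j)]
    have : Ring.KrullDimLE 1 ((Proj (AA k ξ)).presheaf.stalk x) :=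
      krullDimLE_of_coheight_le hx.le
    exact Ring.ordFrac_of_isUnit haU
  · exact Scheme.ord_eq_zero_of_coheight_neq_one hx _

theorem Ea_eq [Nonempty I] (hξ : ∀ i, ξ i ≠ 0) (i : I) (x : Proj (AA k ξ))
    (hi : x ∈ Proj.basicOpen (AA k ξ) (ys k ξ i)) :
    Ea k ξ hξ x = Scheme.ord (yq k ξ hξ i (Classical.arbitrary I)) x := by
  have h1 : yq k ξ hξ (ch k ξ x) (Classical.arbitrary I) =
      yq k ξ hξ (ch k ξ x) i * yq k ξ hξ i (Classical.arbitrary I) := (yq_mul k ξ hξ _ i _).symm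
  rw [Ea, h1, Scheme.ord_mul (yq_ne k ξ hξ _ _) (yq_ne k ξ hξ _ _),
    ord_yq k ξ hξ _ i x (mem_ch k ξ x) hi, zero_add]

theorem isAmple [Nonempty I] (hξ : ∀ i, ξ i ≠ 0) (hc : CompactSpace (Proj (AA k ξ))) :
    IsAmpleDivisor (Proj (AA k ξ)) (Ea k ξ hξ) := by
  refine ⟨hc, ?_, ?_⟩
  · intro z
    refine ⟨yq k ξ hξ (ch k ξ z) (Classical.arbitrary I), yq_ne k ξ hξ _ _,
      fun y hy hyz => ?_⟩
    have hy' : y ∈ Proj.basicOpen (AA k ξ) (ys k ξ (ch k ξ z)) :=
      hyz.mem_open (Proj.basicOpen (AA k ξ) (ys k ξ (ch k ξ z))).isOpen (mem_ch k ξ z)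
    rw [Ea_eq k ξ hξ _ y hy']
  · intro x
    refine ⟨1, one_pos, yq k ξ hξ (Classical.arbitrary I) (ch k ξ x), yq_ne k ξ hξ _ _,
      Proj.basicOpen (AA k ξ) (ys k ξ (ch k ξ x)), affine_chart k ξ _, mem_ch k ξ x,
      fun z => ?_⟩
    refine ⟨yq k ξ hξ (ch k ξ z) (Classical.arbitrary I), ⟨yq_ne k ξ hξ _ _,
      fun y hy hyz => ?_⟩, ?_⟩
    · have hy' : y ∈ Proj.basicOpen (AA k ξ) (ys k ξ (ch k ξ z)) :=
        hyz.mem_open (Proj.basicOpen (AA k ξ) (ys k ξ (ch k ξ z))).isOpen (mem_ch k ξ z)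
      change _ = ((1 : ℕ) : ℤ) * Ea k ξ hξ y
      rw [Ea_eq k ξ hξ _ y hy']
      simp
    · obtain ⟨a, ha, hu⟩ := unit_iff k ξ hξ (ch k ξ z) (ch k ξ x) z (mem_ch k ξ z)
      refine ⟨a, ?_, hu⟩
      apply kap_injective k ξ hξ
      rw [ha, map_mul, kap_yq, kap_yq]
      have := hξ (Classical.arbitrary I)
      field_simp

end geom

theorem main : S_PROJ := by
  intro k _ _ E _ _ I _ _ ξ hξ
  have hInt : IsIntegral (Proj (AA k ξ)) := isInt k ξ hξ
  have hN : IsLocallyNoetherian (Proj (AA k ξ)) := noeth k ξ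
  have hP : IsProper (ff k ξ) := ff_proper k ξ
  have hc : CompactSpace (Proj (AA k ξ)) := by
    have : QuasiCompact (ff k ξ) := inferInstance
    exact QuasiCompact.compactSpace_of_compactSpace (ff k ξ)
  refine ⟨⟨Proj (AA k ξ), ff k ξ, hInt, kap k ξ hξ, fun i => Proj.basicOpen (AA k ξ) (ys k ξ i),
    hN, hP, ⟨Ea k ξ hξ, isAmple k ξ hξ hc⟩, scal k ξ hξ, gen_mem k ξ hξ, affine_chart k ξ,
    cover k ξ, ?_, ?_⟩⟩
  · intro i
    ext e
    rw [SetLike.mem_coe, chart_iff k ξ hξ]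
    constructor
    · rintro ⟨hη, s, rfl⟩
      obtain ⟨z, rfl⟩ := sec_surj k ξ i s
      obtain ⟨n, t, ht, rfl⟩ := Away.mk_surjective (AA k ξ) (ys_mem k ξ i) z
      exact ⟨n, _, t.2 n, (kap_gen k ξ hξ i n t ht).symm⟩
    · rintro ⟨n, a, ha, rfl⟩
      refine ⟨gen_mem k ξ hξ i, (Proj.awayToSection (AA k ξ) (ys k ξ i)).hom
        (Away.mk (AA k ξ) (ys_mem k ξ i) n (mon k ξ n a ha)
          (by rw [smul_eq_mul, mul_one]; exact mon_mem k ξ n a ha)), ?_⟩
      have h := kap_gen k ξ hξ i n (mon k ξ n a ha)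
        (by rw [smul_eq_mul, mul_one]; exact mon_mem k ξ n a ha)
      rw [coe_mon, Polynomial.coeff_monomial, if_pos rfl] at h
      exact h
  · intro x i j hi
    obtain ⟨a, ha, hu⟩ := unit_iff k ξ hξ i j x hi
    rw [← hu]
    constructor
    · rintro ⟨u, rfl⟩
      refine ⟨((u⁻¹ : Units _) : (Proj (AA k ξ)).presheaf.stalk x), ?_⟩
      rw [RingHom.comp_apply]
      have h1 : kap k ξ hξ (algebraMap _ (Proj (AA k ξ)).functionField
          ((u⁻¹ : Units _) : (Proj (AA k ξ)).presheaf.stalk x)) * (ξ j / ξ i) = 1 := by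
        rw [← ha, ← map_mul, ← map_mul, Units.inv_mul, map_one, map_one]
      rw [eq_comm, ← inv_div]
      exact (eq_inv_of_mul_eq_one_left h1).symm
    · rintro ⟨b, hb⟩
      rw [RingHom.comp_apply] at hb
      have hinj : Function.Injective
          (algebraMap ((Proj (AA k ξ)).presheaf.stalk x) (Proj (AA k ξ)).functionField) :=
        FaithfulSMul.algebraMap_injective _ _
      refine IsUnit.of_mul_eq_one b ?_
      apply hinj
      apply kap_injective k ξ hξ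
      rw [map_mul, map_mul, ha, hb, map_one, map_one]
      have := hξ i
      have := hξ j
      field_simp

end Pool.Agent.W797.CBP
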